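import Mathlib

set_option autoImplicit false

/-!
# A quadrinomial `x^n + x^m + x^k + a` with a double root outside the expected family

The polynomial `x^364 + x^363 + x^361 + a`, `a = 31 * 19^361 / 13^364`, has the double
root `-19/13`.
-/

namespace Pool.Agent.Results.MP_21e947_nt.DoubleRoot

open Polynomial

/-- The quadrinomial `x^n + x^m + x^k + a`, as a polynomial over `ℚ`. -/
noncomputable def quad (a : ℚ) (n m k : ℕ) : ℚ[X] := X ^ n + X ^ m + X ^ k + C a

theorem pow_split (x : ℚ) : x ^ 364 + x ^ 363 + x ^ 361 = x ^ 361 * (x ^ 3 + x ^ 2 + 1) := by ring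

theorem pow_split' (x : ℚ) :
    364 * x ^ 363 + 363 * x ^ 362 + 361 * x ^ 360 = x ^ 360 * (364 * x ^ 3 + 363 * x ^ 2 + 361) := by
  ring

/-- `-19/13` is a root of multiplicity at least two, over the rationals. -/
theorem rat_root :
    1 < (quad (31 * 19 ^ 361 / 13 ^ 364) 364 363 361).rootMultiplicity (-19 / 13) := by
  have h0 : (quad (31 * 19 ^ 361 / 13 ^ 364) 364 363 361) ≠ 0 := by
    intro h
    have h1 := congrArg (fun p => eval 0 p) h
    simp [quad] at h1
  rw [one_lt_rootMultiplicity_iff_isRoot h0]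
  constructor
  · simp only [IsRoot.def, quad, eval_add, eval_pow, eval_X, eval_C]
    rw [pow_split, div_pow, Odd.neg_pow (by decide), pow_add (13 : ℚ) 361 3]
    have h13 : (13 : ℚ) ^ 361 ≠ 0 := pow_ne_zero _ (by norm_num)
    generalize (13 : ℚ) ^ 361 = u at *
    generalize (19 : ℚ) ^ 361 = v
    field_simp
    ring
  · simp only [IsRoot.def, quad, derivative_add, derivative_X_pow, derivative_C, eval_add, eval_mul,
      eval_pow, eval_X, add_zero, map_natCast, eval_natCast]
    have h := pow_split' (-19 / 13)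
    norm_num at h ⊢
    linarith

/-- **Theorem.** The expected description of the quadrinomials `x^n + x^m + x^k + a` over `ℚ` with a
multiple root is false: for `(n, m, k) = (364, 363, 361)` and the rational number
`a = 31 * 19^361 / 13^364`, different from `0` and `1`, the polynomial has a complex (indeed
rational) root of multiplicity at least `2`, while `(n, m, k)` is not of the form
`(d (t + u), d t, d u)`. -/
theorem result : ∃ (a : ℚ) (n m k : ℕ), a ≠ 0 ∧ 1 ≤ k ∧ k < m ∧ m < n ∧
    Nat.gcd n (Nat.gcd m k) = 1 ∧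
    (∃ θ : ℂ, 2 ≤ ((quad a n m k).map (algebraMap ℚ ℂ)).rootMultiplicity θ) ∧
    a ≠ 1 ∧
    ¬ ∃ d t u : ℕ, n = d * (t + u) ∧ m = d * t ∧ k = d * u := by
  refine ⟨31 * 19 ^ 361 / 13 ^ 364, 364, 363, 361, by norm_num, by norm_num, by norm_num,
    by norm_num, by norm_num, ⟨algebraMap ℚ ℂ (-19 / 13), ?_⟩, ?_, ?_⟩
  · have h := rat_root
    have hinj : Function.Injective (algebraMap ℚ ℂ) := (algebraMap ℚ ℂ).injective
    rw [← Polynomial.eq_rootMultiplicity_map hinj]
    exact h
  · intro h
    rw [div_eq_one_iff_eq (pow_ne_zero _ (by norm_num))] at h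
    have h2 : (31 * 19 ^ 361 : ℕ) = 13 ^ 364 := by exact_mod_cast h
    have h3 : 19 ∣ 13 ^ 364 := by
      rw [← h2]
      exact Dvd.dvd.mul_left (dvd_pow_self _ (by norm_num)) _
    have h4 := Nat.Prime.dvd_of_dvd_pow (by norm_num) h3
    norm_num at h4
  · rintro ⟨d, t, u, h1, h2, h3⟩
    rw [mul_add, ← h2, ← h3] at h1
    norm_num at h1

end Pool.Agent.Results.MP_21e947_nt.DoubleRoot
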